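import Pool.Agent.Helper96.VF.Goals

/-!
Project VF, packet U2E: the class `m` when `κ(y) = 1`.
-/

set_option autoImplicit false

namespace Pool.Agent.Helper87.VF

open Pool.Agent.Helper96.VF

theorem gU2E (hROW : ROW) (hTILE : TILE) (hGF : GF) : U2E := by
  intro y B j S h1 h2 h3 h4 hV hI hg
  have h3B : 0 < 3 ^ B := by positivity
  have h4j : 0 < 4 ^ j := by positivity
  have hy1 : 1 ≤ y := by omega
  have e3 : (3 : ℕ) ^ (B + 2) = 9 * 3 ^ B := by rw [pow_add]; ring
  have e3' : (3 : ℕ) ^ (B + 2 + 1) = 27 * 3 ^ B := by rw [pow_succ, e3]; ring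
  have e2 : (2 : ℕ) ^ (2 * j + 4) = 16 * 4 ^ j := by
    rw [pow_add, pow_mul]; norm_num; ring
  have e2' : (2 : ℕ) ^ (2 * j + 4 + 1) = 32 * 4 ^ j := by rw [pow_succ, e2]; ring
  have hl3 : Nat.log 3 y = B + 2 :=
    Nat.log_eq_of_pow_le_of_lt_pow (by omega) (by omega)
  have hl2 : Nat.log 2 y = 2 * j + 4 :=
    Nat.log_eq_of_pow_le_of_lt_pow (by omega) (by omega)
  have hgy : g y = B + 2 + 1 + (2 * j + 4 + 1) / 2 := by
    have h := (hGF y hy1).2 (by
      rintro ⟨ho, _⟩
      rw [hl2] at ho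
      rcases ho with ⟨t, ht⟩
      omega)
    rw [h, hl3, hl2]
  obtain ⟨D, lo, hi, hD1, hD2, hD3, hcard⟩ := hROW S hV
  -- rows and columns
  have hrow : ∀ u ∈ S, u.2 < B + 3 := by
    intro u hu
    have h := hI u hu
    have h' : 3 ^ u.2 ≤ y := le_trans (Nat.le_mul_of_pos_left _ (by positivity)) h
    have h'' : 3 ^ u.2 < 3 ^ (B + 3) := by
      have : (3 : ℕ) ^ (B + 3) = 27 * 3 ^ B := e3'
      omega
    exact (Nat.pow_lt_pow_iff_right (by norm_num)).1 h''
  have hcol : ∀ u ∈ S, u.1 < 2 * j + 5 := by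
    intro u hu
    have h := hI u hu
    have h' : 2 ^ u.1 ≤ y := le_trans (Nat.le_mul_of_pos_right _ (by positivity)) h
    have h'' : 2 ^ u.1 < 2 ^ (2 * j + 5) := by
      have : (2 : ℕ) ^ (2 * j + 5) = 32 * 4 ^ j := e2'
      omega
    exact (Nat.pow_lt_pow_iff_right (by norm_num)).1 h''
  have himg : S.image Prod.snd ⊆ Finset.range (B + 3) := by
    intro b hb
    rw [Finset.mem_image] at hb
    obtain ⟨u, hu, rfl⟩ := hb
    exact Finset.mem_range.2 (hrow u hu)
  have himgc : (S.image Prod.snd).card ≤ B + 3 := by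
    have := Finset.card_le_card himg
    rwa [Finset.card_range] at this
  have hsp : ∀ b ∈ D, ∀ b' ∈ D, b < b' → lo b' + 2 ≤ lo b := by
    intro b hb b' hb' hbb
    have ha := hD2 b hb b' hb' hbb
    have hc := (hD1 b' hb').2.2
    omega
  have hhi : ∀ b ∈ D, hi b < 2 * j + 5 := fun b hb => hcol _ (hD1 b hb).2.1
  have hDc : 2 * D.card ≤ 2 * j + 3 + 2 - 0 := by
    refine (hTILE D lo 0 (2 * j + 3) hsp ?_).1
    intro b hb
    have ha := hhi b hb
    have hc := (hD1 b hb).2.2
    omega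
  have hDeq : D.card = j + 2 := by omega
  have himgeq : (S.image Prod.snd).card = B + 3 := by omega
  have himgE : S.image Prod.snd = Finset.range (B + 3) :=
    Finset.eq_of_subset_of_card_le himg (by rw [Finset.card_range]; omega)
  have hne : ∀ b, b < B + 3 → ∃ a, (a, b) ∈ S := by
    intro b hb
    have hm : b ∈ S.image Prod.snd := by rw [himgE]; exact Finset.mem_range.2 hb
    rw [Finset.mem_image] at hm
    obtain ⟨⟨a, b'⟩, hu, hb'⟩ := hm
    exact ⟨a, by simpa using hb' ▸ hu⟩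
  -- row `B + 2`
  have hzero : ∀ a, (a, B + 2) ∈ S → a = 0 := by
    intro a ha
    by_contra hne0
    have h := hI _ ha
    simp only at h
    have hp : 2 ≤ 2 ^ a := by
      calc 2 = 2 ^ 1 := by norm_num
        _ ≤ 2 ^ a := Nat.pow_le_pow_right (by norm_num) (by omega)
    have h' : 2 * 3 ^ (B + 2) ≤ 2 ^ a * 3 ^ (B + 2) := Nat.mul_le_mul_right _ hp
    omega
  have h0 : (0, B + 2) ∈ S := by
    obtain ⟨a, ha⟩ := hne (B + 2) (by omega)
    have := hzero a ha
    subst this
    exact ha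
  have hBD : B + 2 ∉ D := by
    intro hb
    obtain ⟨ha, hc, hlt⟩ := hD1 _ hb
    have := hzero _ hc
    omega
  have hDrow : ∀ b ∈ D, b < B + 2 := by
    intro b hb
    have h := hrow _ (hD1 b hb).1
    simp only at h
    have h' : b ≠ B + 2 := fun h => hBD (h ▸ hb)
    omega
  have hlo1 : ∀ b ∈ D, 1 ≤ lo b := by
    intro b hb
    by_contra hlt
    have hl0 : lo b = 0 := by omega
    obtain ⟨ha, hc, hlt'⟩ := hD1 b hb
    have hb2 := hDrow b hb
    rw [hl0] at ha
    refine hV _ ha _ hc _ h0 ?_ ?_ ?_ ⟨?_, ?_⟩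
    · intro h
      rw [Prod.mk.injEq] at h
      omega
    · intro h
      rw [Prod.mk.injEq] at h
      omega
    · intro h
      rw [Prod.mk.injEq] at h
      omega
    · exact Prod.mk_le_mk.2 ⟨by omega, le_refl _⟩
    · exact Prod.mk_le_mk.2 ⟨le_refl _, by omega⟩
  have hT := (hTILE D lo 1 (2 * j + 3) hsp (by
    intro b hb
    have ha := hhi b hb
    have hc := (hD1 b hb).2.2
    have := hlo1 b hb
    omega)).2 (by omega)
  obtain ⟨b1, hb1, hl1⟩ := hT.1 (by omega)
  obtain ⟨b2, hb2, hl2'⟩ := hT.2 (by omega)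
  have hb21 : b2 < b1 := by
    rcases lt_trichotomy b1 b2 with h | h | h
    · exfalso
      have := hD2 b1 hb1 b2 hb2 h
      have := (hD1 b2 hb2).2.2
      omega
    · subst h
      omega
    · exact h
  have hhi2 : hi b1 = 2 := by
    have ha := hD2 b2 hb2 b1 hb1 hb21
    have hc := (hD1 b1 hb1).2.2
    omega
  obtain ⟨hm1, hm2, _⟩ := hD1 b1 hb1
  rw [hl1] at hm1
  rw [hhi2] at hm2
  -- `b1 ≤ B`
  have hle : b1 ≤ B := by
    have h := hI _ hm2
    simp only at h
    have h' : 3 ^ b1 < 3 ^ (B + 1) := by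
      rw [pow_succ]
      omega
    have := (Nat.pow_lt_pow_iff_right (by norm_num : 1 < 3)).1 h'
    omega
  -- rows above `b1`
  have habove : ∀ b, b1 < b → b < B + 3 → (0, b) ∈ S := by
    intro b hb hb'
    obtain ⟨c, hc⟩ := hne b hb'
    rcases Nat.eq_zero_or_pos c with h | h
    · subst h
      exact hc
    · exfalso
      refine hV _ hm1 _ hm2 _ hc ?_ ?_ ?_ ⟨?_, ?_⟩
      · intro h'
        rw [Prod.mk.injEq] at h'
        omega
      · intro h'
        rw [Prod.mk.injEq] at h'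
        omega
      · intro h'
        rw [Prod.mk.injEq] at h'
        omega
      · exact Prod.mk_le_mk.2 ⟨by omega, le_refl _⟩
      · exact Prod.mk_le_mk.2 ⟨h, hb.le⟩
  have hge : B ≤ b1 := by
    by_contra hlt
    have k1 := habove (b1 + 1) (by omega) (by omega)
    have k2 := habove (b1 + 2) (by omega) (by omega)
    have k3 := habove (b1 + 3) (by omega) (by omega)
    refine hV _ k1 _ k2 _ k3 ?_ ?_ ?_ ⟨?_, ?_⟩
    · intro h'
      rw [Prod.mk.injEq] at h'
      omega
    · intro h'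
      rw [Prod.mk.injEq] at h'
      omega
    · intro h'
      rw [Prod.mk.injEq] at h'
      omega
    · exact Prod.mk_le_mk.2 ⟨le_refl _, by omega⟩
    · exact Prod.mk_le_mk.2 ⟨le_refl _, by omega⟩
  have hbe : b1 = B := le_antisymm hle hge
  subst hbe
  exact ⟨hm1, hm2⟩

end Pool.Agent.Helper87.VF
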